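import Pool.Agent.H73.NK.Targets

/-!
Module IJ of nk_modules: distinct residue classes.
-/

set_option autoImplicit false

open Finset

namespace Pool.Agent.H69.NK

open Pool.Agent.H73.NK

theorem geo_aux (s : ℕ) (l : ℝ) (h : Fin s → ℕ) (hl : 2 ≤ l)
    (hgap : ∀ i j, i < j → h i + 2 ≤ h j) :
    ∀ (n : ℕ) (hn : n < s),
      ∑ i ∈ univ.filter (fun i : Fin s => i.val < n), Real.exp (((h i : ℝ) + 1) * l) ≤
        2 * Real.exp (((h ⟨n, hn⟩ : ℝ) - 1) * l) := by
  intro n
  induction n with
  | zero =>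
    intro hn
    have : (univ.filter (fun i : Fin s => i.val < 0)) = ∅ := by
      ext i; simp
    rw [this, sum_empty]
    positivity
  | succ m ih =>
    intro hn
    have hm : m < s := by omega
    have h1 := ih hm
    have hsplit : univ.filter (fun i : Fin s => i.val < m + 1) =
        insert (⟨m, hm⟩ : Fin s) (univ.filter (fun i : Fin s => i.val < m)) := by
      ext i
      simp only [mem_filter, mem_univ, true_and, mem_insert, Fin.ext_iff]
      omega
    have hnot : (⟨m, hm⟩ : Fin s) ∉ univ.filter (fun i : Fin s => i.val < m) := by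
      simp
    rw [hsplit, sum_insert hnot]
    have hg : h ⟨m, hm⟩ + 2 ≤ h ⟨m + 1, hn⟩ := hgap _ _ (by simp [Fin.lt_def])
    have hg' : ((h ⟨m, hm⟩ : ℝ) + 2) ≤ h ⟨m + 1, hn⟩ := by exact_mod_cast hg
    have h2 : Real.exp (((h ⟨m, hm⟩ : ℝ) + 1) * l) ≤
        Real.exp (((h ⟨m + 1, hn⟩ : ℝ) - 1) * l) := by
      apply Real.exp_le_exp.mpr
      apply mul_le_mul_of_nonneg_right _ (by linarith)
      linarith
    have h3 : 2 * Real.exp (((h ⟨m, hm⟩ : ℝ) - 1) * l) ≤
        Real.exp (((h ⟨m, hm⟩ : ℝ) + 1) * l) := by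
      have : ((h ⟨m, hm⟩ : ℝ) + 1) * l = ((h ⟨m, hm⟩ : ℝ) - 1) * l + 2 * l := by ring
      rw [this, Real.exp_add]
      have h4 : 2 ≤ Real.exp (2 * l) := by
        have := Real.add_one_le_exp (2 * l)
        linarith
      have h5 := Real.exp_pos (((h ⟨m, hm⟩ : ℝ) - 1) * l)
      nlinarith
    linarith

theorem pf_ij (hSZ : T_SZ) : T_IJ := by
  intro s z l H h q hs hl hH hh hgap hq
  have hl0 : (0 : ℝ) ≤ l := by linarith
  obtain ⟨hSZ1, -, -⟩ := hSZ s z l H h hl0 hH
  have i0 : Fin s := ⟨0, hs⟩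
  have hH2 : (2 : ℝ) ≤ H := by
    have h1 := hH i0
    have h2 : (1 : ℝ) ≤ h i0 := by exact_mod_cast hh i0
    linarith
  have hHl : (4 : ℝ) ≤ H * l := by nlinarith
  set Y : ℝ := Real.exp (s * H * l) with hY
  have hs1 : (1 : ℝ) ≤ s := by exact_mod_cast hs
  have hsHl : (4 : ℝ) ≤ s * H * l := by
    have : (s : ℝ) * H * l = s * (H * l) := by ring
    rw [this]; nlinarith
  have hY5 : (5 : ℝ) ≤ Y := by
    have := Real.add_one_le_exp ((s : ℝ) * H * l)
    linarith
  have hqY : Y ^ 4 ≤ (q : ℝ) := by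
    have : Y ^ 4 = Real.exp (4 * (s * H * l)) := by
      rw [hY, ← Real.exp_nat_mul]; norm_num
    rw [this]; exact hq
  have hsY : (s : ℝ) * Real.exp (H * l) ≤ Y := by
    have h1 : (s : ℝ) ≤ Real.exp ((s : ℝ) - 1) := by
      have := Real.add_one_le_exp ((s : ℝ) - 1)
      linarith
    have h2 : Real.exp ((s : ℝ) - 1) ≤ Real.exp (((s : ℝ) - 1) * (H * l)) := by
      apply Real.exp_le_exp.mpr
      nlinarith
    have h3 : Y = Real.exp (((s : ℝ) - 1) * (H * l)) * Real.exp (H * l) := by
      rw [hY, ← Real.exp_add]; congr 1; ring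
    rw [h3]
    exact mul_le_mul_of_nonneg_right (h1.trans h2) (Real.exp_pos _).le
  -- entries
  have hent : ∀ t ∈ TT z l h, ∀ i, 3 ≤ t i := by
    intro t ht i
    obtain ⟨-, -, -, h4⟩ := hSZ1 t ht
    obtain ⟨-, h5, -⟩ := h4 i
    have h6 : (1 : ℝ) ≤ h i := by exact_mod_cast hh i
    have h7 : (2 : ℝ) ≤ h i * l := by nlinarith
    have h8 := Real.add_one_le_exp ((h i : ℝ) * l)
    have h9 : (3 : ℝ) ≤ t i := by linarith
    exact_mod_cast h9
  have hD3 : ∀ t ∈ TT z l h, 3 ≤ DT t := by
    intro t ht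
    have h1 := hent t ht i0
    have h2 : t i0 ∣ DT t := dvd_prod_of_mem t (mem_univ i0)
    have h3 : 0 < DT t := (hSZ1 t ht).1
    exact h1.trans (Nat.le_of_dvd h3 h2)
  -- the sum
  have hsum : ∀ t ∈ TT z l h, ((∑ i, (t i - 1) : ℕ) : ℝ) ≤ Y := by
    intro t ht
    obtain ⟨-, -, -, h4⟩ := hSZ1 t ht
    have h1 : ((∑ i, (t i - 1) : ℕ) : ℝ) ≤ ∑ _i : Fin s, Real.exp (H * l) := by
      rw [Nat.cast_sum]
      apply sum_le_sum
      intro i _
      have h5 : ((t i - 1 : ℕ) : ℝ) ≤ t i := by exact_mod_cast Nat.sub_le _ _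
      have h6 := (h4 i).2.2
      have h7 : Real.exp (((h i : ℝ) + 1) * l) ≤ Real.exp (H * l) := by
        apply Real.exp_le_exp.mpr
        exact mul_le_mul_of_nonneg_right (hH i) hl0
      linarith
    rw [sum_const, card_univ, Fintype.card_fin, nsmul_eq_mul] at h1
    exact h1.trans hsY
  -- the cofactor
  have hcof : ∀ t ∈ TT z l h, DT t ∣ q + 1 →
      (((q + 1) / DT t : ℕ) : ℝ) * DT t = (q : ℝ) + 1 := by
    intro t ht hd
    have := Nat.div_mul_cancel hd
    exact_mod_cast this
  have hDY : ∀ t ∈ TT z l h, (DT t : ℝ) ≤ Y := fun t ht => (hSZ1 t ht).2.1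
  have hcof2 : ∀ t ∈ TT z l h, DT t ∣ q + 1 → 2 ≤ (q + 1) / DT t := by
    intro t ht hd
    have h1 := hcof t ht hd
    have h2 := hDY t ht
    by_contra hc
    push Not at hc
    have h3 : (((q + 1) / DT t : ℕ) : ℝ) ≤ 1 := by exact_mod_cast (by omega : (q + 1) / DT t ≤ 1)
    have h4 : (0 : ℝ) ≤ DT t := by positivity
    have h5 : (q : ℝ) + 1 ≤ Y := by
      rw [← h1]
      nlinarith
    have h6 : Y ≤ Y ^ 4 := le_self_pow₀ (by linarith) (by norm_num)
    linarith
  refine ⟨?_, ?_⟩
  · intro t ht hd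
    have h1 := hcof t ht hd
    have h2 := hcof2 t ht hd
    have h3 := hent t ht
    have h4 := hsum t ht
    have h5 := hD3 t ht
    refine ⟨?_, ?_, h2, fun i => by have := h3 i; omega⟩
    · have h6 : t i0 - 1 ≤ ∑ i, (t i - 1) :=
        single_le_sum (f := fun i => t i - 1) (fun i _ => Nat.zero_le _) (mem_univ i0)
      have h7 := h3 i0
      unfold TS
      omega
    · -- TS < q
      have h6 : (((q + 1) / DT t : ℕ) : ℝ) ≤ ((q : ℝ) + 1) / 3 := by
        have h7 : (3 : ℝ) ≤ DT t := by exact_mod_cast h5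
        rw [le_div_iff₀ (by norm_num)]
        have h8 : (0 : ℝ) ≤ (((q + 1) / DT t : ℕ) : ℝ) := by positivity
        nlinarith
      have h9 : (TS q t : ℝ) ≤ Y + ((q : ℝ) + 1) / 3 := by
        unfold TS
        push_cast
        have h10 : (((q + 1) / DT t - 1 : ℕ) : ℝ) ≤ (((q + 1) / DT t : ℕ) : ℝ) := by
          exact_mod_cast Nat.sub_le _ _
        have h11 : (∑ i, ((t i - 1 : ℕ) : ℝ)) = ((∑ i, (t i - 1) : ℕ) : ℝ) := by
          rw [Nat.cast_sum]
        rw [h11]
        linarith
      have h12 : 5 * Y ≤ Y ^ 4 := by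
        have : Y ^ 4 = Y ^ 3 * Y := by ring
        rw [this]
        have h13 : (5 : ℝ) ≤ Y ^ 3 := by
          have : Y ≤ Y ^ 3 := le_self_pow₀ (by linarith) (by norm_num)
          linarith
        nlinarith
      have h14 : (TS q t : ℝ) < q := by linarith
      exact_mod_cast h14
  · intro t ht t' ht' hd hd' hTS
    rw [mem_sdiff] at ht ht'
    obtain ⟨ht, htB⟩ := ht
    obtain ⟨ht', -⟩ := ht'
    have hc := hcof t ht hd
    have hc' := hcof t' ht' hd'
    have h2 := hcof2 t ht hd
    have h2' := hcof2 t' ht' hd'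
    -- TS equality without truncation
    have hTS' : ((∑ i, (t i - 1) : ℕ) : ℝ) + (((q + 1) / DT t : ℕ) : ℝ) =
        ((∑ i, (t' i - 1) : ℕ) : ℝ) + (((q + 1) / DT t' : ℕ) : ℝ) := by
      unfold TS at hTS
      have : (∑ i, (t i - 1)) + (q + 1) / DT t = (∑ i, (t' i - 1)) + (q + 1) / DT t' := by omega
      exact_mod_cast this
    have hS := hsum t ht
    have hS' := hsum t' ht'
    have hD := hDY t ht
    have hD' := hDY t' ht'
    have hS0 : (0 : ℝ) ≤ ((∑ i, (t i - 1) : ℕ) : ℝ) := by positivity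
    have hS0' : (0 : ℝ) ≤ ((∑ i, (t' i - 1) : ℕ) : ℝ) := by positivity
    -- a lemma on cofactors
    have key : ∀ (c c' : ℝ) (D D' : ℕ), 1 ≤ D → 1 ≤ D' → (D : ℝ) ≤ Y → (D' : ℝ) ≤ Y →
        c * D = (q : ℝ) + 1 → c' * D' = (q : ℝ) + 1 → D < D' → Y < c - c' := by
      intro c c' D D' hD1 hD1' hDY1 hDY1' e1 e2 hlt
      have hD1r : (1 : ℝ) ≤ D := by exact_mod_cast hD1
      have hltr : (D : ℝ) + 1 ≤ D' := by exact_mod_cast hlt
      have h3 : (c - c') * (D * D') = ((q : ℝ) + 1) * (D' - D) := by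
        calc (c - c') * (D * D') = (c * D) * D' - (c' * D') * D := by ring
          _ = _ := by rw [e1, e2]; ring
      have h4 : (q : ℝ) + 1 ≤ (c - c') * (D * D') := by
        rw [h3]
        have : (1 : ℝ) ≤ D' - D := by linarith
        have hq0 : (0 : ℝ) ≤ (q : ℝ) + 1 := by positivity
        nlinarith
      by_contra hcon
      push Not at hcon
      have h5 : (D : ℝ) * D' ≤ Y * Y := mul_le_mul hDY1 hDY1' (by positivity) (by linarith)
      have h6 : 0 ≤ (D : ℝ) * D' := by positivity
      have h7 : (c - c') * (D * D') ≤ Y * (Y * Y) := by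
        calc (c - c') * (D * D') ≤ Y * (D * D') := mul_le_mul_of_nonneg_right hcon h6
          _ ≤ Y * (Y * Y) := mul_le_mul_of_nonneg_left h5 (by linarith)
      have h8 : Y * (Y * Y) ≤ Y ^ 4 := by
        have : Y ^ 4 = Y * (Y * Y) * Y := by ring
        rw [this]
        have h9 : 0 ≤ Y * (Y * Y) := by positivity
        nlinarith
      linarith
    have hDD : DT t = DT t' := by
      rcases lt_trichotomy (DT t) (DT t') with hlt | heq | hgt
      · have := key _ _ (DT t) (DT t') (by have := hD3 t ht; omega) (by have := hD3 t' ht'; omega)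
          hD hD' hc hc' hlt
        linarith
      · exact heq
      · have := key _ _ (DT t') (DT t) (by have := hD3 t' ht'; omega) (by have := hD3 t ht; omega)
          hD' hD hc' hc hgt
        linarith
    have hsumeq : ∑ i, (t i : ℝ) = ∑ i, (t' i : ℝ) := by
      rw [hDD] at hTS'
      have h3 : ((∑ i, (t i - 1) : ℕ) : ℝ) = ((∑ i, (t' i - 1) : ℕ) : ℝ) := by linarith
      have h4 : ∀ u ∈ TT z l h, ((∑ i, (u i - 1) : ℕ) : ℝ) = ∑ i, (u i : ℝ) - s := by
        intro u hu
        rw [Nat.cast_sum]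
        have h5 : ∀ i ∈ (univ : Finset (Fin s)), ((u i - 1 : ℕ) : ℝ) = (u i : ℝ) - 1 := by
          intro i _
          have := hent u hu i
          rw [Nat.cast_sub (by omega)]
          simp
        rw [sum_congr rfl h5, sum_sub_distrib, sum_const, card_univ, Fintype.card_fin]
        simp
      rw [h4 t ht, h4 t' ht'] at h3
      linarith
    by_contra hne
    -- the largest index where they differ
    have hex : (univ.filter (fun i : Fin s => t i ≠ t' i)).Nonempty := by
      by_contra hemp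
      rw [not_nonempty_iff_eq_empty] at hemp
      apply hne
      funext i
      by_contra hi
      have : i ∈ univ.filter (fun i : Fin s => t i ≠ t' i) := by simp [hi]
      rw [hemp] at this
      exact absurd this (notMem_empty _)
    set j := (univ.filter (fun i : Fin s => t i ≠ t' i)).max' hex with hj
    have hjm : t j ≠ t' j := by
      have := max'_mem _ hex
      rw [← hj, mem_filter] at this
      exact this.2
    have hjmax : ∀ i, j < i → t i = t' i := by
      intro i hi
      by_contra hc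
      have := le_max' (univ.filter (fun i : Fin s => t i ≠ t' i)) i (by simp [hc])
      rw [← hj] at this
      exact absurd this (not_le.mpr hi)
    -- the difference
    have hdiff : ∑ i, ((t i : ℝ) - t' i) = 0 := by
      rw [sum_sub_distrib, hsumeq, sub_self]
    have hsplit : ∑ i, ((t i : ℝ) - t' i) =
        ((t j : ℝ) - t' j) + ∑ i ∈ univ.filter (fun i : Fin s => i.val < j.val),
          ((t i : ℝ) - t' i) := by
      rw [← sum_filter_add_sum_filter_not univ (fun i : Fin s => i.val < j.val)]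
      rw [add_comm]
      congr 1
      rw [sum_eq_single j]
      · intro i hi hij
        rw [mem_filter] at hi
        have : j < i := by
          rw [Fin.lt_def]
          have h5 : i.val ≠ j.val := fun h6 => hij (Fin.ext h6)
          omega
        rw [hjmax i this, sub_self]
      · intro hi
        exfalso
        apply hi
        simp
    rw [hsplit] at hdiff
    have habs : |(t' j : ℝ) - t j| ≤
        ∑ i ∈ univ.filter (fun i : Fin s => i.val < j.val), Real.exp (((h i : ℝ) + 1) * l) := by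
      have h5 : (t' j : ℝ) - t j = ∑ i ∈ univ.filter (fun i : Fin s => i.val < j.val),
          ((t i : ℝ) - t' i) := by linarith
      rw [h5]
      refine (abs_sum_le_sum_abs _ _).trans (sum_le_sum ?_)
      intro i _
      have h6 := ((hSZ1 t ht).2.2.2 i).2.2
      have h7 := ((hSZ1 t' ht').2.2.2 i).2.2
      have h8 : (0 : ℝ) ≤ t i := by positivity
      have h9 : (0 : ℝ) ≤ t' i := by positivity
      rw [abs_le]
      constructor <;> linarith
    have hgeo := geo_aux s l h hl hgap j.val j.isLt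
    have hjj : (⟨j.val, j.isLt⟩ : Fin s) = j := rfl
    rw [hjj] at hgeo
    have htj := ((hSZ1 t ht).2.2.2 j).2.1
    have hfin : 2 * Real.exp (((h j : ℝ) - 1) * l) ≤ 2 * Real.exp (-l) * t j := by
      have : ((h j : ℝ) - 1) * l = -l + h j * l := by ring
      rw [this, Real.exp_add]
      have h10 := mul_le_mul_of_nonneg_left htj (Real.exp_pos (-l)).le
      linarith
    apply htB
    simp only [BT, mem_filter]
    refine ⟨ht, j, t' j, ?_, fun h11 => hjm h11.symm, ?_⟩
    · rw [hDD]
      exact dvd_prod_of_mem t' (mem_univ j)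
    · linarith

end Pool.Agent.H69.NK
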